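import Mathlib
import Pool.Agent.Lib.MP_47235e_al.Two11

/-!
# The cogrowth is finite to one

Only finitely many conjugacy classes of `r`-generated subgroups of `F_m` have a given cogrowth
greater than one, and every nonempty set of such subgroups has a member of maximal cogrowth.  So
in the automorphic orbit of a nonabelian finitely generated subgroup the maximal cogrowth is
attained, on finitely many conjugacy classes only.
-/

set_option autoImplicit false

namespace Pool.Agent.Results.MP_47235e_al.FiniteToOne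

open Filter FreeGroup Pool.Agent.Lib.MP_47235e_al
open scoped ENNReal

/-- the cogrowth `limsup |{h ∈ H : |h| = n}| ^ (1 / n)` of a subgroup `H` of the free group with
basis `x_0, ..., x_{m-1}` -/
noncomputable def cogrowth {m : ℕ} (H : Subgroup (FreeGroup (Fin m))) : ℝ≥0∞ :=
  limsup (fun n : ℕ =>
    (({h : FreeGroup (Fin m) | h ∈ H ∧ h.norm = n}.ncard : ℕ) : ℝ≥0∞) ^ (1 / (n : ℝ))) atTop

theorem cogrowth_eq {m : ℕ} (H : Subgroup (FreeGroup (Fin m))) : cogrowth H = rate (sph H) := rfl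

theorem one_lt_cogrowth {m : ℕ} {H : Subgroup (FreeGroup (Fin m))} {x y : FreeGroup (Fin m)}
    (hx : x ∈ H) (hy : y ∈ H) (hxy : x * y ≠ y * x) : 1 < cogrowth H := by
  have h1 := rate_pos_rank_two (n := max x.norm y.norm) (le_max_left _ _) (le_max_right _ _) hxy
  have h2 : Subgroup.closure {x, y} ≤ H := by
    rw [Subgroup.closure_le]
    rintro z (rfl | rfl)
    · exact hx
    · exact hy
  have h3 := rate_mono h2
  refine lt_of_lt_of_le (lt_of_le_of_lt ?_ h1) h3
  rw [← ENNReal.ofReal_one]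
  apply ENNReal.ofReal_le_ofReal
  have : (0 : ℝ) ≤ 1 / (5 * ((max x.norm y.norm : ℕ) : ℝ)) := by positivity
  linarith

/-- (1) For `c > 1` only finitely many conjugacy classes of subgroups of `F_m` generated by `r`
elements have cogrowth `c`.  (2) Every nonempty set of such subgroups has a member of maximal
cogrowth.  (3) In the automorphic orbit of a finitely generated subgroup `H` the maximal cogrowth
is attained and, if `H` is not abelian, the members of maximal cogrowth form finitely many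
conjugacy classes. -/
theorem result :
    (∀ (m r : ℕ) (c : ℝ≥0∞), 1 < c →
      ∃ T : Set (Subgroup (FreeGroup (Fin m))), T.Finite ∧
        ∀ u : Fin r → FreeGroup (Fin m), cogrowth (Subgroup.closure (Set.range u)) = c →
          ∃ g, (Subgroup.closure (Set.range u)).map (MulAut.conj g).toMonoidHom ∈ T) ∧
    (∀ (m r : ℕ) (S : Set (Subgroup (FreeGroup (Fin m)))), S.Nonempty →
      (∀ L ∈ S, ∃ u : Fin r → FreeGroup (Fin m), L = Subgroup.closure (Set.range u)) →
      ∃ K ∈ S, ∀ L ∈ S, cogrowth L ≤ cogrowth K) ∧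
    (∀ (m : ℕ) (H : Subgroup (FreeGroup (Fin m))), H.FG →
      ∃ φ : FreeGroup (Fin m) ≃* FreeGroup (Fin m),
        (∀ ψ : FreeGroup (Fin m) ≃* FreeGroup (Fin m),
          cogrowth (H.map ψ.toMonoidHom) ≤ cogrowth (H.map φ.toMonoidHom)) ∧
        ((∃ x ∈ H, ∃ y ∈ H, x * y ≠ y * x) →
          ∃ T : Set (Subgroup (FreeGroup (Fin m))), T.Finite ∧
            ∀ ψ : FreeGroup (Fin m) ≃* FreeGroup (Fin m),
              cogrowth (H.map ψ.toMonoidHom) = cogrowth (H.map φ.toMonoidHom) →
              ∃ g, (H.map ψ.toMonoidHom).map (MulAut.conj g).toMonoidHom ∈ T)) := by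
  refine ⟨fun m r c hc => finite_classes m r hc, fun m r S hS h => exists_rate_max S hS h,
    fun m H hH => ?_⟩
  obtain ⟨s, hs⟩ := hH
  have hr : ∃ (r : ℕ) (u : Fin r → FreeGroup (Fin m)), H = Subgroup.closure (Set.range u) := by
    refine ⟨s.card, fun i => (s.equivFin.symm i : FreeGroup (Fin m)), ?_⟩
    rw [← hs]
    congr 1
    ext x
    simp only [Finset.mem_coe, Set.mem_range]
    constructor
    · intro hx
      exact ⟨s.equivFin ⟨x, hx⟩, by simp⟩
    · rintro ⟨i, rfl⟩
      exact (s.equivFin.symm i).2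
  obtain ⟨r, u, hu⟩ := hr
  have hmap : ∀ ψ : FreeGroup (Fin m) ≃* FreeGroup (Fin m), H.map ψ.toMonoidHom =
      Subgroup.closure (Set.range fun i => ψ (u i)) := by
    intro ψ
    rw [hu, MonoidHom.map_closure, ← Set.range_comp]
    rfl
  obtain ⟨K, ⟨φ, rfl⟩, hK⟩ := exists_rate_max (r := r)
    (Set.range fun ψ : FreeGroup (Fin m) ≃* FreeGroup (Fin m) => H.map ψ.toMonoidHom)
    ⟨_, MulEquiv.refl _, rfl⟩ (by
      rintro _ ⟨ψ, rfl⟩
      exact ⟨_, hmap ψ⟩)
  have hmax : ∀ ψ : FreeGroup (Fin m) ≃* FreeGroup (Fin m),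
      cogrowth (H.map ψ.toMonoidHom) ≤ cogrowth (H.map φ.toMonoidHom) := fun ψ => hK _ ⟨ψ, rfl⟩
  refine ⟨φ, hmax, ?_⟩
  rintro ⟨x, hx, y, hy, hxy⟩
  have h1 : 1 < cogrowth (H.map φ.toMonoidHom) := by
    refine lt_of_lt_of_le (one_lt_cogrowth hx hy hxy) ?_
    have h2 := hmax (MulEquiv.refl _)
    have h3 : H.map (MulEquiv.refl (FreeGroup (Fin m))).toMonoidHom = H := Subgroup.map_id _
    rwa [h3] at h2
  obtain ⟨T, hT, hT'⟩ := finite_classes m r h1
  refine ⟨T, hT, fun ψ hψ => ?_⟩
  rw [hmap ψ] at hψ ⊢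
  exact hT' _ hψ

end Pool.Agent.Results.MP_47235e_al.FiniteToOne
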