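import Mathlib
import Pool.Agent.Lib.MP_47235e_al.Two8
import Pool.Agent.Lib.MP_47235e_al.Two13

/-!
# Subgroups of large cogrowth, and all subgroups of rank two

A subgroup of rank `r` of a free group whose cogrowth exceeds `2 r - 3` is conjugate to one with
short generators (an explicit bound).  So for orbits which contain such a subgroup, in particular
for all noncyclic subgroups of rank two, and for all subgroups of rank `r` which contain a free
factor of rank `r - 1` of the whole group, the maximal cogrowth is attained at a member of an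
explicit finite list.
-/

set_option autoImplicit false

namespace Pool.Agent.Results.MP_47235e_al.LargeCogrowth

open Filter FreeGroup Pool.Agent.Lib.MP_47235e_al
open scoped ENNReal

/-- the cogrowth `limsup |{h ∈ H : |h| = n}| ^ (1 / n)` of a subgroup `H` of the free group with
basis `x_0, ..., x_{m-1}` -/
noncomputable def cogrowth {m : ℕ} (H : Subgroup (FreeGroup (Fin m))) : ℝ≥0∞ :=
  limsup (fun n : ℕ =>
    (({h : FreeGroup (Fin m) | h ∈ H ∧ h.norm = n}.ncard : ℕ) : ℝ≥0∞) ^ (1 / (n : ℝ))) atTop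

theorem cogrowth_eq {m : ℕ} (H : Subgroup (FreeGroup (Fin m))) : cogrowth H = rate (sph H) := rfl

theorem finite_short {m r : ℕ} (B : ℕ) :
    {u : Fin r → FreeGroup (Fin m) | ∀ i, (u i).norm < B}.Finite := by
  have h1 : {h : FreeGroup (Fin m) | h.norm < B}.Finite :=
    (finite_ball B).subset fun h hh => (show h.norm < B from hh).le
  exact Set.Finite.pi' fun _ => h1

theorem exists_best {m r M : ℕ} {t : ℝ} (hr : 2 ≤ r) (ht : 2 * (r : ℝ) - 3 < t)
    (hM : 4 * (r : ℝ) ≤ (t - (2 * r - 3)) * t ^ M) (u₀ : Fin r → FreeGroup (Fin m))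
    (hex : ∃ ψ : FreeGroup (Fin m) ≃* FreeGroup (Fin m),
      ENNReal.ofReal t < cogrowth ((Subgroup.closure (Set.range u₀)).map ψ.toMonoidHom)) :
    ∃ φ : FreeGroup (Fin m) ≃* FreeGroup (Fin m),
      (∀ ψ : FreeGroup (Fin m) ≃* FreeGroup (Fin m),
        cogrowth ((Subgroup.closure (Set.range u₀)).map ψ.toMonoidHom) ≤
          cogrowth ((Subgroup.closure (Set.range u₀)).map φ.toMonoidHom)) ∧
      ∃ u : Fin r → FreeGroup (Fin m),
        (Subgroup.closure (Set.range u₀)).map φ.toMonoidHom = Subgroup.closure (Set.range u) ∧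
        ∀ i, (u i).norm < (2 * r - 1) * M := by
  have hr' : (2 : ℝ) ≤ r := by exact_mod_cast hr
  have ht1 : 1 < t := by linarith
  have ht1' : (1 : ℝ≥0∞) < ENNReal.ofReal t := by
    rw [← ENNReal.ofReal_one]
    exact (ENNReal.ofReal_lt_ofReal_iff (by linarith)).2 ht1
  set H := Subgroup.closure (Set.range u₀) with hH
  have hmap : ∀ ψ : FreeGroup (Fin m) ≃* FreeGroup (Fin m), H.map ψ.toMonoidHom =
      Subgroup.closure (Set.range fun i => ψ (u₀ i)) := by
    intro ψ
    rw [hH, MonoidHom.map_closure, ← Set.range_comp]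
    rfl
  have hshort : ∀ ψ : FreeGroup (Fin m) ≃* FreeGroup (Fin m),
      ENNReal.ofReal t < cogrowth (H.map ψ.toMonoidHom) →
      ∃ (g : FreeGroup (Fin m)) (u : Fin r → FreeGroup (Fin m)),
        cj g (H.map ψ.toMonoidHom) = Subgroup.closure (Set.range u) ∧
        ∀ i, (u i).norm < (2 * r - 1) * M := by
    intro ψ hψ
    rw [hmap] at hψ ⊢
    exact short_of_large hr ht hM _ hψ
  have hcj : ∀ (K : Subgroup (FreeGroup (Fin m))) (g : FreeGroup (Fin m)),
      ENNReal.ofReal t < cogrowth K → cogrowth K = cogrowth (cj g K) := by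
    intro K g hK
    have h1 : cogrowth K ≤ cogrowth (cj g K) := rate_cj K g (ht1'.trans hK)
    refine le_antisymm h1 ?_
    have h2 := rate_cj (cj g K) g⁻¹ (ht1'.trans (lt_of_lt_of_le hK h1))
    rw [cj_cj, inv_mul_cancel, cj_one] at h2
    exact h2
  let S : Set ℝ≥0∞ := {c | ∃ ψ : FreeGroup (Fin m) ≃* FreeGroup (Fin m),
    cogrowth (H.map ψ.toMonoidHom) = c ∧ ENNReal.ofReal t < c}
  have hSfin : S.Finite := by
    apply ((finite_short (m := m) (r := r) ((2 * r - 1) * M)).image
      fun u => cogrowth (Subgroup.closure (Set.range u))).subset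
    rintro c ⟨ψ, rfl, hψ⟩
    obtain ⟨g, u, h1, h2⟩ := hshort ψ hψ
    refine ⟨u, h2, ?_⟩
    show cogrowth (Subgroup.closure (Set.range u)) = _
    rw [← h1, ← hcj _ g hψ]
  have hSne : S.Nonempty := by
    obtain ⟨ψ, hψ⟩ := hex
    exact ⟨_, ψ, rfl, hψ⟩
  obtain ⟨c, ⟨φ₀, hφ, hc⟩, hmax⟩ := Set.exists_max_image S id hSfin hSne
  rw [← hφ] at hc
  obtain ⟨g, u, h1, h2⟩ := hshort φ₀ hc
  have hφ2 : H.map (φ₀.trans (MulAut.conj g)).toMonoidHom = cj g (H.map φ₀.toMonoidHom) := by
    unfold cj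
    rw [Subgroup.map_map]
    rfl
  refine ⟨φ₀.trans (MulAut.conj g), fun ψ => ?_, u, hφ2.trans h1, h2⟩
  rw [hφ2, ← hcj _ g hc]
  by_cases h3 : ENNReal.ofReal t < cogrowth (H.map ψ.toMonoidHom)
  · have := hmax _ ⟨ψ, rfl, h3⟩
    simp only [id] at this
    rw [hφ]
    exact this
  · exact (not_lt.1 h3).trans hc.le

/-- the maximiser for subgroups generated by `q + 1` elements with a member of the orbit which
contains the first `q` basis elements and a further word -/
theorem best_of_firsts {m q n : ℕ} (hq : 2 ≤ q) (hqm : q ≤ m)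
    (u₀ : Fin (q + 1) → FreeGroup (Fin m))
    (hex : ∃ (ψ : FreeGroup (Fin m) ≃* FreeGroup (Fin m)) (v : FreeGroup (Fin m)),
      (∀ i : Fin m, i.val < q →
        FreeGroup.of i ∈ (Subgroup.closure (Set.range u₀)).map ψ.toMonoidHom) ∧
      v ∈ (Subgroup.closure (Set.range u₀)).map ψ.toMonoidHom ∧
      v ∉ Subgroup.closure {x | ∃ i : Fin m, i.val < q ∧ x = FreeGroup.of i} ∧ v.norm ≤ n) :
    ∃ φ : FreeGroup (Fin m) ≃* FreeGroup (Fin m),
      (∀ ψ : FreeGroup (Fin m) ≃* FreeGroup (Fin m),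
        cogrowth ((Subgroup.closure (Set.range u₀)).map ψ.toMonoidHom) ≤
          cogrowth ((Subgroup.closure (Set.range u₀)).map φ.toMonoidHom)) ∧
      ∃ u : Fin (q + 1) → FreeGroup (Fin m),
        (Subgroup.closure (Set.range u₀)).map φ.toMonoidHom = Subgroup.closure (Set.range u) ∧
        ∀ i, (u i).norm < (2 * q + 1) * (2 * n + 1) := by
  obtain ⟨ψ, v, h1, h2, h3, h4⟩ := hex
  have hq' : (2 : ℝ) ≤ q := by exact_mod_cast hq
  have hK : firsts m q ≤ (Subgroup.closure (Set.range u₀)).map ψ.toMonoidHom := by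
    unfold firsts
    rw [Subgroup.closure_le]
    rintro x ⟨i, hi, rfl⟩
    exact h1 i hi
  have h5 : ENNReal.ofReal (2 * q - 1 + 2 * q * ((2 * q + 1 : ℝ)⁻¹) ^ n) <
      cogrowth ((Subgroup.closure (Set.range u₀)).map ψ.toMonoidHom) :=
    rate_gt_of_firsts (by omega) hK h2 h3 h4 hqm
  set t : ℝ := 2 * q - 1 + 2 * q * ((2 * q + 1 : ℝ)⁻¹) ^ n with ht
  have hp : (0 : ℝ) < 2 * q * ((2 * q + 1 : ℝ)⁻¹) ^ n := by positivity
  have ht2 : 2 * (q : ℝ) - 1 < t := by rw [ht]; linarith
  have ht3 : 3 ≤ t := by linarith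
  have h6 : (2 * q + 1 : ℝ) ^ n ≤ (t ^ 2) ^ n := by
    apply pow_le_pow_left₀ (by positivity)
    nlinarith
  have hM : 4 * ((q + 1 : ℕ) : ℝ) ≤
      (t - (2 * ((q + 1 : ℕ) : ℝ) - 3)) * t ^ (2 * n + 1) := by
    have e1 : t - (2 * ((q + 1 : ℕ) : ℝ) - 3) = 2 * q * ((2 * q + 1 : ℝ)⁻¹) ^ n := by
      rw [ht]; push_cast; ring
    rw [e1, pow_succ, pow_mul]
    have e2 : ((2 * q + 1 : ℝ)⁻¹) ^ n * (2 * q + 1 : ℝ) ^ n = 1 := by
      rw [← mul_pow, inv_mul_cancel₀ (by positivity), one_pow]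
    calc 4 * ((q + 1 : ℕ) : ℝ) ≤ 2 * q * 3 := by push_cast; linarith
      _ = 2 * q * (((2 * q + 1 : ℝ)⁻¹) ^ n * (2 * q + 1 : ℝ) ^ n) * 3 := by rw [e2]; ring
      _ = 2 * q * ((2 * q + 1 : ℝ)⁻¹) ^ n * ((2 * q + 1 : ℝ) ^ n * 3) := by ring
      _ ≤ 2 * q * ((2 * q + 1 : ℝ)⁻¹) ^ n * ((t ^ 2) ^ n * t) := by
          apply mul_le_mul_of_nonneg_left _ hp.le
          exact mul_le_mul h6 ht3 (by norm_num) (by positivity)
  obtain ⟨φ, h7, u, h8, h9⟩ := exists_best (m := m) (r := q + 1) (M := 2 * n + 1) (t := t)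
    (by omega) (by push_cast; linarith) hM u₀ ⟨ψ, h5⟩
  refine ⟨φ, h7, u, h8, fun i => ?_⟩
  have h10 := h9 i
  rwa [show 2 * (q + 1) - 1 = 2 * q + 1 by omega] at h10

/-- (1) A subgroup of rank at most `r` of a free group whose cogrowth exceeds `t > 2 r - 3` is
conjugate to a subgroup generated by `r` words of length less than `(2 r - 1) M`, where
`(t - (2 r - 3)) t ^ M ≥ 4 r`.  (2) If some member of the automorphic orbit of such a subgroup has
cogrowth greater than `t`, the maximum over the orbit is attained at a member generated by `r`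
such words.  (3) If `u`, `v` do not commute and have length at most `n`, the maximum over the
orbit of the subgroup they generate is attained at a member generated by two words of length less
than `15 n (log_2 (40 n) + 1)`.  (4) If `q ≥ 2` and some member of the automorphic orbit of a
subgroup generated by `q + 1` elements contains the first `q` basis elements and a word of length
at most `n` outside the subgroup they generate, the maximum over the orbit is attained at a member
generated by `q + 1` words of length less than `(2 q + 1) (2 n + 1)`. -/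
theorem result :
    (∀ (m r M : ℕ) (t : ℝ), 2 ≤ r → 2 * (r : ℝ) - 3 < t →
      4 * (r : ℝ) ≤ (t - (2 * r - 3)) * t ^ M → ∀ u₀ : Fin r → FreeGroup (Fin m),
      ENNReal.ofReal t < cogrowth (Subgroup.closure (Set.range u₀)) →
      ∃ (g : FreeGroup (Fin m)) (u : Fin r → FreeGroup (Fin m)),
        (Subgroup.closure (Set.range u₀)).map (MulAut.conj g).toMonoidHom =
          Subgroup.closure (Set.range u) ∧
        ∀ i, (u i).norm < (2 * r - 1) * M) ∧
    (∀ (m r M : ℕ) (t : ℝ), 2 ≤ r → 2 * (r : ℝ) - 3 < t →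
      4 * (r : ℝ) ≤ (t - (2 * r - 3)) * t ^ M → ∀ u₀ : Fin r → FreeGroup (Fin m),
      (∃ ψ : FreeGroup (Fin m) ≃* FreeGroup (Fin m),
        ENNReal.ofReal t < cogrowth ((Subgroup.closure (Set.range u₀)).map ψ.toMonoidHom)) →
      ∃ φ : FreeGroup (Fin m) ≃* FreeGroup (Fin m),
        (∀ ψ : FreeGroup (Fin m) ≃* FreeGroup (Fin m),
          cogrowth ((Subgroup.closure (Set.range u₀)).map ψ.toMonoidHom) ≤
            cogrowth ((Subgroup.closure (Set.range u₀)).map φ.toMonoidHom)) ∧
        ∃ u : Fin r → FreeGroup (Fin m),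
          (Subgroup.closure (Set.range u₀)).map φ.toMonoidHom =
            Subgroup.closure (Set.range u) ∧
          ∀ i, (u i).norm < (2 * r - 1) * M) ∧
    (∀ (m n : ℕ) (u v : FreeGroup (Fin m)), u.norm ≤ n → v.norm ≤ n → u * v ≠ v * u →
      ∃ φ : FreeGroup (Fin m) ≃* FreeGroup (Fin m),
        (∀ ψ : FreeGroup (Fin m) ≃* FreeGroup (Fin m),
          cogrowth ((Subgroup.closure {u, v}).map ψ.toMonoidHom) ≤
            cogrowth ((Subgroup.closure {u, v}).map φ.toMonoidHom)) ∧
        ∃ a b : FreeGroup (Fin m),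
          (Subgroup.closure {u, v}).map φ.toMonoidHom = Subgroup.closure {a, b} ∧
          a.norm < 15 * n * (Nat.log 2 (40 * n) + 1) ∧
          b.norm < 15 * n * (Nat.log 2 (40 * n) + 1)) ∧
    (∀ (m q n : ℕ) (u₀ : Fin (q + 1) → FreeGroup (Fin m)), 2 ≤ q → q ≤ m →
      (∃ (ψ : FreeGroup (Fin m) ≃* FreeGroup (Fin m)) (v : FreeGroup (Fin m)),
        (∀ i : Fin m, i.val < q →
          FreeGroup.of i ∈ (Subgroup.closure (Set.range u₀)).map ψ.toMonoidHom) ∧
        v ∈ (Subgroup.closure (Set.range u₀)).map ψ.toMonoidHom ∧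
        v ∉ Subgroup.closure {x | ∃ i : Fin m, i.val < q ∧ x = FreeGroup.of i} ∧
        v.norm ≤ n) →
      ∃ φ : FreeGroup (Fin m) ≃* FreeGroup (Fin m),
        (∀ ψ : FreeGroup (Fin m) ≃* FreeGroup (Fin m),
          cogrowth ((Subgroup.closure (Set.range u₀)).map ψ.toMonoidHom) ≤
            cogrowth ((Subgroup.closure (Set.range u₀)).map φ.toMonoidHom)) ∧
        ∃ u : Fin (q + 1) → FreeGroup (Fin m),
          (Subgroup.closure (Set.range u₀)).map φ.toMonoidHom =
            Subgroup.closure (Set.range u) ∧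
          ∀ i, (u i).norm < (2 * q + 1) * (2 * n + 1)) := by
  refine ⟨fun m r M t hr ht hM u₀ h => short_of_large hr ht hM u₀ h,
    fun m r M t hr ht hM u₀ h => exists_best hr ht hM u₀ h, fun m n u v hu hv huv => ?_,
    fun m q n u₀ hq hqm h => best_of_firsts hq hqm u₀ h⟩
  have hn : 1 ≤ n := by
    by_contra h0
    have h1 : u.norm = 0 := by omega
    rw [FreeGroup.norm_eq_zero] at h1
    rw [h1] at huv
    exact huv (by simp)
  have hn' : (1 : ℝ) ≤ n := by exact_mod_cast hn
  have hset : ∀ a b : FreeGroup (Fin m), Set.range ![a, b] = {a, b} := by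
    intro a b
    ext x
    constructor
    · rintro ⟨i, rfl⟩
      fin_cases i
      · exact Or.inl rfl
      · exact Or.inr rfl
    · rintro (rfl | rfl)
      · exact ⟨0, rfl⟩
      · exact ⟨1, rfl⟩
  set j := Nat.log 2 (40 * n) + 1 with hj
  set t : ℝ := 1 + 1 / (5 * n) with ht
  have ht0 : (0 : ℝ) < 1 / (5 * n) := by positivity
  have hpow : (40 : ℝ) * n ≤ t ^ (5 * n * j) := by
    have h1 : (2 : ℝ) ≤ t ^ (5 * n) := by
      have h2 := one_add_mul_le_pow (a := (1 : ℝ) / (5 * n)) (by linarith) (5 * n)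
      have h3 : ((5 * n : ℕ) : ℝ) * (1 / (5 * n)) = 1 := by
        push_cast
        field_simp
      rw [h3] at h2
      linarith
    have h2 : (2 : ℝ) ^ j ≤ t ^ (5 * n * j) := by
      rw [pow_mul]
      exact pow_le_pow_left₀ (by norm_num) h1 j
    have h3 : 40 * n < 2 ^ j := Nat.lt_pow_succ_log_self (by norm_num) _
    have h4 : ((40 * n : ℕ) : ℝ) ≤ ((2 ^ j : ℕ) : ℝ) := by exact_mod_cast h3.le
    push_cast at h4
    linarith
  have hM : 4 * ((2 : ℕ) : ℝ) ≤ (t - (2 * ((2 : ℕ) : ℝ) - 3)) * t ^ (5 * n * j) := by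
    have h1 : t - (2 * ((2 : ℕ) : ℝ) - 3) = 1 / (5 * n) := by
      rw [ht]; push_cast; ring
    rw [h1]
    calc 4 * ((2 : ℕ) : ℝ) = 1 / (5 * n) * (40 * n) := by
          push_cast
          field_simp
          norm_num
      _ ≤ 1 / (5 * n) * t ^ (5 * n * j) := mul_le_mul_of_nonneg_left hpow ht0.le
  have hex : ENNReal.ofReal t < cogrowth (Subgroup.closure {u, v}) :=
    rate_pos_rank_two hu hv huv
  obtain ⟨φ, h1, w, h2, h3⟩ := exists_best (m := m) (r := 2) (M := 5 * n * j) (t := t) le_rfl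
    (by push_cast; linarith) hM ![u, v] ⟨MulEquiv.refl _, by
      rw [hset]
      have : (Subgroup.closure {u, v}).map (MulEquiv.refl (FreeGroup (Fin m))).toMonoidHom =
          Subgroup.closure {u, v} := Subgroup.map_id _
      rw [this]
      exact hex⟩
  rw [hset] at h1 h2
  have hw : Set.range w = {w 0, w 1} := by
    rw [← hset (w 0) (w 1)]
    congr 1
    funext i
    fin_cases i <;> rfl
  rw [hw] at h2
  refine ⟨φ, h1, w 0, w 1, h2, ?_, ?_⟩
  · have := h3 0
    calc (w 0).norm < (2 * 2 - 1) * (5 * n * j) := this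
      _ = 15 * n * j := by ring
  · have := h3 1
    calc (w 1).norm < (2 * 2 - 1) * (5 * n * j) := this
      _ = 15 * n * j := by ring

end Pool.Agent.Results.MP_47235e_al.LargeCogrowth
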